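import Mathlib
import Pool.Agent.Helper64.OneCyc.Main

set_option autoImplicit false

/-!
# MP_d82055_ag, Q1: equal characteristic, relative dimension one

`k` is a field of characteristic `p`, `A = k[[t]]` (a complete, hence excellent henselian, discrete
valuation ring with residue field `k`), `C` a `k`-scheme and `X = C ×ₖ Spec A`.  For `C` a smooth
projective curve of genus `≥ 1` the scheme `X` is smooth projective over `A` of relative
dimension `d = 1`, `X_n = X ×_A A/(tⁿ) = C ×ₖ Spec A/(tⁿ)`, `𝒦ᴹ_{1,X_n} = 𝒪*_{X_n}`, and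
`CH₁(X) = Pic X` (the Gersten conjecture is a theorem here).

We show that there is no filtration as in Q1, for `G = CH₁(X)` or for any other abelian group `G`
with a compatible family of homomorphisms `res_n : G → H¹(C, 𝒪*_{X_n})`.
-/

open AlgebraicGeometry CategoryTheory Pool.Agent.Helper64.OneCyc

universe u v w

namespace Pool.Agent.Results.MP_d82055_ag.EqualCharacteristic

/-- The existence of a decreasing filtration `F₁ ⊇ F₂ ⊇ ⋯` of `G` with the properties (i) and (ii)
of Q1, for the family of homomorphisms `res_n : G → H_n` (`n ≥ 1`):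

(i) `res_n` vanishes on `F_n`, and the induced map `G / F_n → H_n` has an inverse `s`;

(ii) for every `r ≥ 1` the pro-group `(F_n ⊗ ℤ/p^r)_n` is zero: for every `n` there is `m ≥ n`
such that `F_m ⊗ ℤ/p^r → F_n ⊗ ℤ/p^r` is the zero map. -/
def HasFiltration (p : ℕ) {G : Type v} [AddCommGroup G] {H : ℕ → Type w}
    [∀ n, AddCommGroup (H n)] (res : ∀ n, G →+ H n) : Prop :=
  ∃ (F : ℕ → AddSubgroup G) (hF : ∀ n m, 1 ≤ n → n ≤ m → F m ≤ F n),
    (∀ n, 1 ≤ n → ∃ (h : F n ≤ (res n).ker) (s : H n → G ⧸ F n),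
      Function.LeftInverse s (QuotientAddGroup.lift (F n) (res n) h) ∧
      Function.RightInverse s (QuotientAddGroup.lift (F n) (res n) h)) ∧
    (∀ r, 1 ≤ r → ∀ (n : ℕ) (hn : 1 ≤ n), ∃ (m : ℕ) (hnm : n ≤ m),
      LinearMap.rTensor (ZMod (p ^ r))
        (AddSubgroup.inclusion (hF n m hn hnm)).toIntLinearMap = 0)

/-- If `x ⊗ 1 = 0` in `M ⊗ ℤ/N`, then `x` is divisible by `N` in `M`. -/
theorem divisible_of_tmul_eq_zero (N : ℕ) {M : Type v} [AddCommGroup M] (x : M)
    (h : (x ⊗ₜ[ℤ] (1 : ZMod N)) = 0) : ∃ y : M, x = N • y := by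
  let R : AddSubgroup M := (DistribSMul.toAddMonoidHom M N : M →+ M).range
  have hR : ∀ q : M ⧸ R, N • q = 0 := by
    intro q
    obtain ⟨q, rfl⟩ := QuotientAddGroup.mk_surjective q
    rw [← QuotientAddGroup.mk_nsmul, QuotientAddGroup.eq_zero_iff]
    exact ⟨q, rfl⟩
  let _ : Module (ZMod N) (M ⧸ R) := AddCommGroup.zmodModule hR
  let φ : M →+ ZMod N →+ M ⧸ R := AddMonoidHom.mk'
    (fun m => AddMonoidHom.mk' (fun c => c • (QuotientAddGroup.mk m : M ⧸ R))
      (fun a b => add_smul _ _ _))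
    (fun a b => by
      ext c
      exact smul_add c (QuotientAddGroup.mk a : M ⧸ R) (QuotientAddGroup.mk b))
  have hφ : ∀ (r : ℤ) (m : M) (c : ZMod N), φ (r • m) c = φ m (r • c) := by
    intro r m c
    rw [map_zsmul, map_zsmul]
    rfl
  have h1 := congrArg (TensorProduct.liftAddHom φ hφ) h
  rw [TensorProduct.liftAddHom_tmul, map_zero] at h1
  have h2 : (QuotientAddGroup.mk x : M ⧸ R) = 0 := by
    rw [← h1]
    exact (one_smul _ _).symm
  rw [QuotientAddGroup.eq_zero_iff] at h2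
  obtain ⟨y, hy⟩ := h2
  exact ⟨y, hy.symm⟩

/-- **Equal characteristic, relative dimension one.** Let `k` be a field of characteristic `p > 0`,
`C` a Noetherian `k`-scheme with `H¹(C, 𝒪_C) ≠ 0` (for instance a smooth projective curve of
genus `≥ 1`), and `X_n = C ×ₖ Spec k[[t]]/(tⁿ)`.  Then for every abelian group `G` with
homomorphisms `res_n : G → H¹(C, 𝒪*_{X_n})`, `n ≥ 1`, compatible with the restriction maps
(for instance `G = CH₁(C ×ₖ Spec k[[t]])`), there is no filtration as in Q1. -/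
theorem result (p : ℕ) [Fact p.Prime] (k : Type u) [Field k] [CharP k p]
    (C : Scheme.{u}) [AlgebraicGeometry.IsNoetherian C] (f : C ⟶ Spec (CommRingCat.of k))
    (hC : Nontrivial (HOne C))
    (G : Type v) [AddCommGroup G] (res : ∀ n : ℕ, G →+ HUnits f n)
    (hres : ∀ n, 1 ≤ n → ∀ x, hRes f n (res (n + 1) x) = res n x) :
    ¬ HasFiltration p res := by
  rintro ⟨F, hF, hi, hii⟩
  -- surjectivity of `res n` and `ker (res n) ≤ F n`
  have hsurj : ∀ n, 1 ≤ n → Function.Surjective (res n) := by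
    intro n hn y
    obtain ⟨h, s, -, hs⟩ := hi n hn
    obtain ⟨x, hx⟩ := QuotientAddGroup.mk_surjective (s y)
    refine ⟨x, ?_⟩
    have := hs y
    rw [← hx] at this
    exact this
  have hker : ∀ n, 1 ≤ n → (res n).ker ≤ F n := by
    intro n hn x hx
    obtain ⟨h, s, hs, -⟩ := hi n hn
    have h1 : QuotientAddGroup.lift (F n) (res n) h (QuotientAddGroup.mk x) =
        QuotientAddGroup.lift (F n) (res n) h 0 := by
      rw [map_zero]
      exact hx
    have h2 := hs.injective h1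
    exact (QuotientAddGroup.eq_zero_iff x).mp h2
  obtain ⟨a, ha⟩ := exists_ne (0 : HOne C)
  obtain ⟨m, hnm, hm⟩ := hii 1 le_rfl 1 le_rfl
  -- choose `m' ≥ m` prime to `p`
  obtain ⟨m', hmm', hpm'⟩ : ∃ m', m ≤ m' ∧ ¬ p ∣ m' := by
    by_cases h : p ∣ m
    · refine ⟨m + 1, Nat.le_succ m, fun h' => ?_⟩
      have := (Nat.dvd_add_right h).mp h'
      exact (Fact.out : p.Prime).one_lt.ne' (Nat.dvd_one.mp this)
    · exact ⟨m, le_rfl, h⟩
  have hm'1 : 1 ≤ m' := le_trans hnm hmm'
  obtain ⟨α, hα, hdiv⟩ := key_class f p a ha m' hm'1 hpm'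
  obtain ⟨c, hc⟩ := hsurj (m' + 1) (Nat.succ_le_succ (Nat.zero_le _)) α
  have hc1 : res m' c = 0 := by rw [← hres m' hm'1, hc, hα]
  have hc2 : c ∈ F m := hF m m' hnm hmm' (hker m' hm'1 hc1)
  -- `c` is divisible by `p`
  have h1 := LinearMap.congr_fun hm ((⟨c, hc2⟩ : F m) ⊗ₜ[ℤ] (1 : ZMod (p ^ 1)))
  rw [LinearMap.rTensor_tmul, LinearMap.zero_apply] at h1
  obtain ⟨y, hy⟩ := divisible_of_tmul_eq_zero (p ^ 1) _ h1
  have h2 : c = p • (y : G) := by
    have := congrArg (fun z : F 1 => (z : G)) hy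
    simpa using this
  exact hdiv (res (m' + 1) (y : G)) (by rw [← map_nsmul, ← h2, hc])

end Pool.Agent.Results.MP_d82055_ag.EqualCharacteristic
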